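import Mathlib
import Pool.Agent.H99.HN.Targets

/-!
# Finite moments for `lam ≤ 0` (`T_momn`)
-/

namespace Pool.Agent.H42.HN

open Pool.Agent.H99.HM Pool.Agent.H99.HN
open MeasureTheory Set Filter Topology Real Metric
open scoped ContDiff

/-! ### pointwise facts -/

lemma sum_dir_sq (x : E3) : ∑ i, (x i / ‖x‖) ^ 2 ≤ 1 := by
  have h1 : ∑ i, (x i / ‖x‖) ^ 2 = (∑ i, x i ^ 2) / ‖x‖ ^ 2 := by
    rw [Finset.sum_div]
    apply Finset.sum_congr rfl
    intro i _
    rw [div_pow]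
  rw [h1, ← EuclideanSpace.real_norm_sq_eq]
  by_cases hx : ‖x‖ = 0
  · rw [hx]; norm_num
  · rw [div_self (by positivity)]

lemma g2_nonneg (G : Fin 3 → E3 → ℂ) (x : E3) : 0 ≤ g2 G x :=
  Finset.sum_nonneg (fun _ _ => by positivity)

lemma dr_sq_le (G : Fin 3 → E3 → ℂ) (x : E3) : ‖dr G x‖ ^ 2 ≤ g2 G x := by
  have h1 : ‖dr G x‖ ≤ ∑ i, |x i / ‖x‖| * ‖G i x‖ := by
    unfold dr
    refine (norm_sum_le _ _).trans ?_
    apply Finset.sum_le_sum
    intro i _
    rw [norm_mul, Complex.norm_real, Real.norm_eq_abs]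
  have h2 : (∑ i, |x i / ‖x‖| * ‖G i x‖) ^ 2 ≤ (∑ i, |x i / ‖x‖| ^ 2) * ∑ i, ‖G i x‖ ^ 2 :=
    Finset.sum_mul_sq_le_sq_mul_sq _ _ _
  have h3 : ∑ i, |x i / ‖x‖| ^ 2 ≤ 1 := by
    simp_rw [sq_abs]
    exact sum_dir_sq x
  have h4 : 0 ≤ ∑ i, ‖G i x‖ ^ 2 := g2_nonneg G x
  calc ‖dr G x‖ ^ 2 ≤ (∑ i, |x i / ‖x‖| * ‖G i x‖) ^ 2 := by gcongr
    _ ≤ (∑ i, |x i / ‖x‖| ^ 2) * ∑ i, ‖G i x‖ ^ 2 := h2
    _ ≤ 1 * ∑ i, ‖G i x‖ ^ 2 := by gcongr
    _ = g2 G x := by rw [one_mul]; rfl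

lemma ur_abs_le (u : E3 → ℂ) (G : Fin 3 → E3 → ℂ) (x : E3) : |ur u G x| ≤ ‖u x‖ * ‖dr G x‖ := by
  unfold ur
  refine (Complex.abs_re_le_norm _).trans ?_
  rw [norm_mul, RCLike.norm_conj]

/-! ### integrability -/

lemma int_u2 {u : E3 → ℂ} {G : Fin 3 → E3 → ℂ} (h : IsH1 u G) : Integrable (fun x => ‖u x‖ ^ 2) := by
  have := h.memLp.integrable_norm_pow (p := 2) (by norm_num)
  simpa using this

lemma int_g2 {u : E3 → ℂ} {G : Fin 3 → E3 → ℂ} (h : IsH1 u G) : Integrable (fun x => g2 G x) := by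
  unfold g2
  apply integrable_finsetSum
  intro i _
  have := (h.memLp_grad i).integrable_norm_pow (p := 2) (by norm_num)
  simpa using this

lemma meas_dr {u : E3 → ℂ} {G : Fin 3 → E3 → ℂ} (h : IsH1 u G) : AEStronglyMeasurable (dr G) := by
  have h1 : dr G = ∑ i, fun x : E3 => ((x i / ‖x‖ : ℝ) : ℂ) * G i x := by
    funext x
    rw [Finset.sum_apply]
    rfl
  rw [h1]
  apply Finset.aestronglyMeasurable_sum
  intro i _
  apply AEStronglyMeasurable.mul
  · have h2 : Measurable (fun x : E3 => x i / ‖x‖) := by fun_prop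
    exact (Complex.measurable_ofReal.comp h2).aestronglyMeasurable
  · exact (h.memLp_grad i).1

lemma meas_ur {u : E3 → ℂ} {G : Fin 3 → E3 → ℂ} (h : IsH1 u G) :
    AEStronglyMeasurable (fun x => ur u G x) := by
  have h1 : AEStronglyMeasurable (fun x => starRingEnd ℂ (u x) * dr G x) := by
    apply AEStronglyMeasurable.mul
    · exact Complex.continuous_conj.comp_aestronglyMeasurable h.memLp.1
    · exact meas_dr h
  exact Complex.continuous_re.comp_aestronglyMeasurable h1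

lemma int_ur {u : E3 → ℂ} {G : Fin 3 → E3 → ℂ} (h : IsH1 u G) : Integrable (fun x => ur u G x) := by
  apply ((int_u2 h).add (int_g2 h)).mono' (meas_ur h)
  filter_upwards with x
  rw [Real.norm_eq_abs]
  have h1 := ur_abs_le u G x
  have h2 := dr_sq_le G x
  have h3 : ‖u x‖ * ‖dr G x‖ ≤ ‖u x‖ ^ 2 + ‖dr G x‖ ^ 2 := by
    nlinarith [sq_nonneg (‖u x‖ - ‖dr G x‖), sq_nonneg (‖u x‖), sq_nonneg (‖dr G x‖)]
  show |ur u G x| ≤ ‖u x‖ ^ 2 + g2 G x
  linarith

lemma int_bdd_mul {f g : E3 → ℝ} {C : ℝ} (hg : Integrable g) (hf : Measurable f)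
    (h : ∀ x, |f x| ≤ C) : Integrable (fun x => f x * g x) := by
  apply hg.bdd_mul (c := C) hf.aestronglyMeasurable
  filter_upwards with x
  exact h x

lemma integrable_of_fatou {f : ℕ → E3 → ℝ} {F : E3 → ℝ} {C : ℝ} (hf : ∀ k, Integrable (f k))
    (hnn : ∀ k x, 0 ≤ f k x) (hC : ∀ k, ∫ x, f k x ≤ C)
    (hlim : ∀ᵐ x, Tendsto (fun k => f k x) atTop (𝓝 (F x))) : Integrable F := by
  have hm : AEStronglyMeasurable F := aestronglyMeasurable_of_tendsto_ae atTop (fun k => (hf k).1) hlim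
  rw [← memLp_one_iff_integrable]
  refine ⟨hm, ?_⟩
  have h1 := Lp.eLpNorm_lim_le_liminf_eLpNorm (p := 1) (fun k => (hf k).1) F hlim
  refine lt_of_le_of_lt h1 ?_
  have h2 : ∀ k, eLpNorm (f k) 1 volume ≤ ENNReal.ofReal C := by
    intro k
    rw [eLpNorm_one_eq_lintegral_enorm, ← ofReal_integral_norm_eq_lintegral_enorm (hf k)]
    apply ENNReal.ofReal_le_ofReal
    have h3 : ∫ x, ‖f k x‖ = ∫ x, f k x := by
      apply integral_congr_ae
      filter_upwards with x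
      exact Real.norm_of_nonneg (hnn k x)
    rw [h3]
    exact hC k
  calc liminf (fun k => eLpNorm (f k) 1 volume) atTop ≤ liminf (fun _ : ℕ => ENNReal.ofReal C) atTop :=
        liminf_le_liminf (Eventually.of_forall h2)
    _ = ENNReal.ofReal C := liminf_const _
    _ < ⊤ := ENNReal.ofReal_lt_top

/-! ### the truncated radius -/

lemma mR_nonneg {R r : ℝ} (hR : 0 < R) (hr : 0 ≤ r) : 0 ≤ mR R r := by
  unfold mR; positivity

lemma mR_le_R {R r : ℝ} (hR : 0 < R) (hr : 0 ≤ r) : mR R r ≤ R := by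
  unfold mR
  rw [div_le_iff₀ (by positivity)]
  nlinarith

lemma mR_le_r {R r : ℝ} (hR : 0 < R) (hr : 0 ≤ r) : mR R r ≤ r := by
  unfold mR
  rw [div_le_iff₀ (by positivity)]
  nlinarith

lemma mR_pos {R r : ℝ} (hR : 0 < R) (hr : 0 < r) : 0 < mR R r := by
  unfold mR; positivity

lemma mR_der {R r : ℝ} (hR : 0 < R) (hr : 0 < r) : HasDerivAt (mR R) ((R / (R + r)) ^ 2) r := by
  unfold mR
  have h1 : HasDerivAt (fun r : ℝ => R * r) R r := by
    simpa using (hasDerivAt_id r).const_mul R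
  have h2 : HasDerivAt (fun r : ℝ => R + r) 1 r := by
    simpa using (hasDerivAt_id r).const_add R
  have h3 := h1.div h2 (by positivity)
  have h4 : (R * (R + r) - R * r * 1) / (R + r) ^ 2 = (R / (R + r)) ^ 2 := by
    have : R + r ≠ 0 := by positivity
    field_simp
    ring
  rw [h4] at h3
  exact h3

lemma mR_measurable (R : ℝ) : Measurable (mR R) := by
  unfold mR
  fun_prop

lemma mR_tendsto (r : ℝ) : Tendsto (fun k : ℕ => mR ((k : ℝ) + 1) r) atTop (𝓝 r) := by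
  have h1 : Tendsto (fun k : ℕ => ((k : ℝ) + 1)) atTop atTop :=
    tendsto_atTop_add_const_right _ _ tendsto_natCast_atTop_atTop
  have h2 : Tendsto (fun R : ℝ => mR R r) atTop (𝓝 r) := by
    have h3 : Tendsto (fun R : ℝ => r - r ^ 2 / (R + r)) atTop (𝓝 (r - 0)) := by
      apply tendsto_const_nhds.sub
      exact tendsto_const_nhds.div_atTop (tendsto_atTop_add_const_right _ _ tendsto_id)
    rw [sub_zero] at h3
    apply h3.congr'
    filter_upwards [eventually_gt_atTop (-r)] with R hR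
    unfold mR
    have : R + r ≠ 0 := by
      intro h
      linarith
    field_simp
    ring
  exact h2.comp h1

/-- the estimate for one value of the truncation parameter -/
lemma momn_est {u : E3 → ℂ} {lam : ℝ} {G : Fin 3 → E3 → ℂ} (hEH : T_eh) (hHB : T_hb)
    (hsol : IsSol u lam) (hH1 : IsH1 u G) (hlam : lam ≤ 0) (hmass : 1 < mass u) (n : ℕ) :
    ∃ C : ℝ, ∃ c : ℝ, 0 < c ∧ ∀ R : ℝ, 0 < R →
      Integrable (fun x : E3 => mR R ‖x‖ ^ (n + 1) * g2 G x) ∧
      Integrable (fun x : E3 => mR R ‖x‖ ^ (n + 1) / ‖x‖ * ‖u x‖ ^ 2) ∧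
      1 / 2 * (∫ x : E3, mR R ‖x‖ ^ (n + 1) * g2 G x)
        + c / 2 * (∫ x : E3, mR R ‖x‖ ^ (n + 1) / ‖x‖ * ‖u x‖ ^ 2) ≤ C := by
  obtain ⟨hb1, hb2, _, hb4⟩ := hHB u G hH1
  set m0 : ℝ := (1 + mass u) / 2 with hm0
  have hm1 : 1 < m0 := by rw [hm0]; linarith
  have hm2 : m0 < mass u := by rw [hm0]; linarith
  obtain ⟨R1, hR1, hR1'⟩ := hb4 m0 hm2
  set c : ℝ := m0 - 1 with hc
  have hc0 : 0 < c := by rw [hc]; linarith
  set R2 : ℝ := max R1 (((n : ℝ) + 1) ^ 2 / c) with hR2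
  have hR20 : 0 < R2 := lt_of_lt_of_le hR1 (le_max_left _ _)
  set K1 : ℝ := (1 + c / 2) * R2 ^ n with hK1
  set K2 : ℝ := ((n : ℝ) + 1) ^ 2 / 2 * R2 ^ n with hK2
  have hK10 : 0 ≤ K1 := by positivity
  have hK20 : 0 ≤ K2 := by positivity
  have hu2 := int_u2 hH1
  have hg2 := int_g2 hH1
  have hur := int_ur hH1
  have hinv : Integrable (fun x : E3 => ‖u x‖ ^ 2 / ‖x‖) := by
    have := (hb1 0).1
    simpa using this
  have hcontH : Continuous (hartree u) := by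
    have h1 : LipschitzWith (Real.toNNReal (4 * ∫ y, g2 G y)) (hartree u) := by
      apply LipschitzWith.of_dist_le_mul
      intro x y
      rw [Real.dist_eq, dist_eq_norm]
      refine (hb2 x y).trans ?_
      gcongr
      exact Real.le_coe_toNNReal _
    exact h1.continuous
  set A : ℝ := (∫ y, g2 G y) + mass u with hA
  have hHle : ∀ x, |hartree u x| ≤ A := by
    intro x
    rw [abs_of_nonneg (hb1 x).2.1]
    exact (hb1 x).2.2
  refine ⟨∫ x : E3, (K1 * ‖u x‖ ^ 2 + K2 * (‖u x‖ ^ 2 / ‖x‖)), c, hc0, ?_⟩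
  intro R hR
  set h : ℝ → ℝ := fun r => mR R r ^ (n + 1) with hh
  set h1 : ℝ → ℝ := fun r => ((n : ℝ) + 1) * mR R r ^ n * (R / (R + r)) ^ 2 with hh1
  have hC1 : C1 h h1 := by
    constructor
    · intro r hr
      have h2 : HasDerivAt h (((n + 1 : ℕ) : ℝ) * mR R r ^ (n + 1 - 1) * (R / (R + r)) ^ 2) r :=
        (mR_der hR hr).pow (n + 1)
      have h3 : h1 r = ((n + 1 : ℕ) : ℝ) * mR R r ^ (n + 1 - 1) * (R / (R + r)) ^ 2 := by
        rw [hh1]
        push_cast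
        simp only [Nat.add_sub_cancel]
      rw [h3]
      exact h2
    · intro r hr
      rw [mem_Ioi] at hr
      apply ContinuousAt.continuousWithinAt
      have e1 : ContinuousAt (mR R) r := (mR_der hR hr).continuousAt
      have e2 : ContinuousAt (fun r : ℝ => R / (R + r)) r := by
        apply ContinuousAt.div continuousAt_const (by fun_prop) (by positivity)
      exact ((continuousAt_const.mul (e1.pow n)).mul (e2.pow 2))
  have hq : ∀ r, 0 ≤ r → 0 ≤ R / (R + r) ∧ R / (R + r) ≤ 1 := by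
    intro r hr
    constructor
    · positivity
    · rw [div_le_one (by positivity)]
      linarith
  have hhnn : ∀ r, 0 ≤ r → 0 ≤ h r := fun r hr => pow_nonneg (mR_nonneg hR hr) _
  have hhle : ∀ r, 0 ≤ r → h r ≤ R ^ (n + 1) := fun r hr =>
    pow_le_pow_left₀ (mR_nonneg hR hr) (mR_le_R hR hr) _
  have hh1nn : ∀ r, 0 ≤ r → 0 ≤ h1 r := by
    intro r hr
    have := mR_nonneg hR hr
    have := (hq r hr).1
    rw [hh1]
    positivity
  have hh1le : ∀ r, 0 ≤ r → h1 r ≤ ((n : ℝ) + 1) * R ^ n := by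
    intro r hr
    have e1 := mR_nonneg hR hr
    have e2 := hq r hr
    have e3 : mR R r ^ n ≤ R ^ n := pow_le_pow_left₀ e1 (mR_le_R hR hr) _
    have e4 : (R / (R + r)) ^ 2 ≤ 1 := pow_le_one₀ e2.1 e2.2
    rw [hh1]
    calc ((n : ℝ) + 1) * mR R r ^ n * (R / (R + r)) ^ 2 ≤ ((n : ℝ) + 1) * mR R r ^ n * 1 := by
          gcongr
      _ ≤ ((n : ℝ) + 1) * R ^ n := by
          rw [mul_one]
          gcongr
  have hmh : Measurable h := (mR_measurable R).pow_const _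
  have hmh1 : Measurable h1 := by
    rw [hh1]
    apply Measurable.mul
    · exact ((mR_measurable R).pow_const _).const_mul _
    · fun_prop
  -- `h / r` is bounded
  have hhr : ∀ r, 0 ≤ r → 0 ≤ h r / r ∧ h r / r ≤ R ^ n ∧ h r / r ≤ r ^ n := by
    intro r hr
    have e1 := mR_nonneg hR hr
    rcases hr.eq_or_lt with h0 | h0
    · rw [← h0]
      simp
      positivity
    · have e2 : h r = mR R r ^ n * mR R r := pow_succ _ _
      have e3 : mR R r / r ≤ 1 := by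
        rw [div_le_one h0]
        exact mR_le_r hR hr
      have e4 : h r / r = mR R r ^ n * (mR R r / r) := by rw [e2, mul_div_assoc]
      have e5 : 0 ≤ mR R r / r := by positivity
      refine ⟨by rw [e4]; positivity, ?_, ?_⟩
      · rw [e4]
        calc mR R r ^ n * (mR R r / r) ≤ R ^ n * 1 := by
              gcongr
              exact mR_le_R hR hr
          _ = R ^ n := mul_one _
      · rw [e4]
        calc mR R r ^ n * (mR R r / r) ≤ r ^ n * 1 := by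
              gcongr
              exact mR_le_r hR hr
          _ = r ^ n := mul_one _
  -- integrability
  have I1 : Integrable (fun x : E3 => h ‖x‖ * g2 G x) :=
    int_bdd_mul (C := R ^ (n + 1)) hg2 (hmh.comp measurable_norm) (fun x => by
      rw [abs_of_nonneg (hhnn _ (norm_nonneg _))]
      exact hhle _ (norm_nonneg _))
  have I2 : Integrable (fun x : E3 => h1 ‖x‖ * ur u G x) :=
    int_bdd_mul (C := ((n : ℝ) + 1) * R ^ n) hur (hmh1.comp measurable_norm) (fun x => by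
      rw [abs_of_nonneg (hh1nn _ (norm_nonneg _))]
      exact hh1le _ (norm_nonneg _))
  have I3 : Integrable (fun x : E3 => h ‖x‖ / ‖x‖ * ‖u x‖ ^ 2) :=
    int_bdd_mul (C := R ^ n) (f := fun x : E3 => h ‖x‖ / ‖x‖) hu2
      ((hmh.comp measurable_norm).div measurable_norm) (fun x => by
      rw [abs_of_nonneg (hhr _ (norm_nonneg _)).1]
      exact (hhr _ (norm_nonneg _)).2.1)
  have I4 : Integrable (fun x : E3 => h ‖x‖ * ‖u x‖ ^ 2 * hartree u x) := by
    have e1 : Integrable (fun x : E3 => (h ‖x‖ * hartree u x) * ‖u x‖ ^ 2) :=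
      int_bdd_mul (C := R ^ (n + 1) * A) (f := fun x : E3 => h ‖x‖ * hartree u x) hu2
        ((hmh.comp measurable_norm).mul hcontH.measurable) (fun x => by
        rw [abs_mul, abs_of_nonneg (hhnn _ (norm_nonneg _))]
        exact mul_le_mul (hhle _ (norm_nonneg _)) (hHle x) (abs_nonneg _) (by positivity))
    apply e1.congr
    filter_upwards with x
    ring
  refine ⟨I1, I3, ?_⟩
  have hid := hEH u lam G hsol hH1 h h1 (R ^ (n + 1) + ((n : ℝ) + 1) * R ^ n) hC1 (by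
    intro r hr
    have e1 : 0 ≤ R ^ (n + 1) := by positivity
    have e2 : 0 ≤ ((n : ℝ) + 1) * R ^ n := by positivity
    rw [abs_of_nonneg (hhnn r hr.le), abs_of_nonneg (hh1nn r hr.le)]
    have e3 := hhle r hr.le
    have e4 := hh1le r hr.le
    constructor <;> linarith)
  have hrhs : lam * ∫ x : E3, h ‖x‖ * ‖u x‖ ^ 2 ≤ 0 := by
    apply mul_nonpos_of_nonpos_of_nonneg hlam
    apply integral_nonneg
    intro x
    exact mul_nonneg (hhnn _ (norm_nonneg _)) (by positivity)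
  have I12 : Integrable (fun x : E3 => h ‖x‖ * g2 G x + h1 ‖x‖ * ur u G x) := I1.add I2
  have I123 : Integrable (fun x : E3 => h ‖x‖ * g2 G x + h1 ‖x‖ * ur u G x
      - h ‖x‖ / ‖x‖ * ‖u x‖ ^ 2) := I12.sub I3
  have I1234 : Integrable (fun x : E3 => h ‖x‖ * g2 G x + h1 ‖x‖ * ur u G x
      - h ‖x‖ / ‖x‖ * ‖u x‖ ^ 2 + h ‖x‖ * ‖u x‖ ^ 2 * hartree u x) := I123.add I4
  have hsum : ∫ x : E3, (h ‖x‖ * g2 G x + h1 ‖x‖ * ur u G x - h ‖x‖ / ‖x‖ * ‖u x‖ ^ 2
      + h ‖x‖ * ‖u x‖ ^ 2 * hartree u x) ≤ 0 := by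
    rw [integral_add I123 I4, integral_sub I12 I3, integral_add I1 I2]
    rw [hid]
    exact hrhs
  have hEint : Integrable (fun x : E3 => K1 * ‖u x‖ ^ 2 + K2 * (‖u x‖ ^ 2 / ‖x‖)) :=
    (hu2.const_mul K1).add (hinv.const_mul K2)
  have hgoal : 1 / 2 * (∫ x : E3, h ‖x‖ * g2 G x) + c / 2 * (∫ x : E3, h ‖x‖ / ‖x‖ * ‖u x‖ ^ 2)
      = ∫ x : E3, (1 / 2 * (h ‖x‖ * g2 G x) + c / 2 * (h ‖x‖ / ‖x‖ * ‖u x‖ ^ 2)) := by
    rw [integral_add (I1.const_mul _) (I3.const_mul _), integral_const_mul, integral_const_mul]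
  have hpt : ∀ᵐ x : E3, 1 / 2 * (h ‖x‖ * g2 G x) + c / 2 * (h ‖x‖ / ‖x‖ * ‖u x‖ ^ 2) ≤
      (h ‖x‖ * g2 G x + h1 ‖x‖ * ur u G x - h ‖x‖ / ‖x‖ * ‖u x‖ ^ 2
      + h ‖x‖ * ‖u x‖ ^ 2 * hartree u x) + (K1 * ‖u x‖ ^ 2 + K2 * (‖u x‖ ^ 2 / ‖x‖)) := by
    have hne : ∀ᵐ x : E3, x ≠ 0 := by
      rw [ae_iff]
      simp
    filter_upwards [hne] with x hx
    have hr : 0 < ‖x‖ := norm_pos_iff.mpr hx
    set r : ℝ := ‖x‖ with hrdef
    set U : ℝ := ‖u x‖ ^ 2 with hU
    have hU0 : 0 ≤ U := by positivity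
    have hg0 := g2_nonneg G x
    have hhp : 0 < h r := pow_pos (mR_pos hR hr) _
    -- the cross term
    have hcross : -(h1 r * ur u G x) ≤ 1 / 2 * (h r * g2 G x)
        + ((n : ℝ) + 1) ^ 2 / 2 * (h r / r * (U / r)) := by
      have e1 := ur_abs_le u G x
      have e2 := dr_sq_le G x
      have e3 : h1 r = ((n : ℝ) + 1) * (h r / r) * (R / (R + r)) := by
        rw [hh1, hh]
        simp only
        rw [pow_succ (mR R r) n]
        have e4 : mR R r = r * (R / (R + r)) := by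
          unfold mR
          ring
        have e5 : mR R r ^ n * mR R r / r = mR R r ^ n * (R / (R + r)) := by
          conv_lhs => rw [mul_div_assoc]
          congr 1
          rw [e4]
          field_simp
        rw [e5]
        ring
      have e4 : h1 r ≤ ((n : ℝ) + 1) * (h r / r) := by
        rw [e3]
        have e5 := (hq r hr.le).2
        have e6 : 0 ≤ ((n : ℝ) + 1) * (h r / r) := by positivity
        calc ((n : ℝ) + 1) * (h r / r) * (R / (R + r)) ≤ ((n : ℝ) + 1) * (h r / r) * 1 := by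
              gcongr
          _ = _ := mul_one _
      have e5 : -(h1 r * ur u G x) ≤ h1 r * (‖u x‖ * ‖dr G x‖) := by
        have e6 : -(ur u G x) ≤ ‖u x‖ * ‖dr G x‖ := (neg_le_abs _).trans e1
        have e7 := hh1nn r hr.le
        nlinarith
      have e6 : h1 r * (‖u x‖ * ‖dr G x‖) ≤ ((n : ℝ) + 1) * (h r / r) * (‖u x‖ * ‖dr G x‖) := by
        gcongr
      have e7 : ((n : ℝ) + 1) * (h r / r) * (‖u x‖ * ‖dr G x‖)
          ≤ 1 / 2 * (h r * ‖dr G x‖ ^ 2) + ((n : ℝ) + 1) ^ 2 / 2 * (h r / r * (U / r)) := by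
        have e8 : 1 / 2 * (h r * ‖dr G x‖ ^ 2) + ((n : ℝ) + 1) ^ 2 / 2 * (h r / r * (U / r))
            - ((n : ℝ) + 1) * (h r / r) * (‖u x‖ * ‖dr G x‖)
            = 1 / 2 * h r * (‖dr G x‖ - ((n : ℝ) + 1) * (‖u x‖ / r)) ^ 2 := by
          rw [hU]
          field_simp
          ring
        have e9 : 0 ≤ 1 / 2 * h r * (‖dr G x‖ - ((n : ℝ) + 1) * (‖u x‖ / r)) ^ 2 := by positivity
        linarith
      have e8 : 1 / 2 * (h r * ‖dr G x‖ ^ 2) ≤ 1 / 2 * (h r * g2 G x) := by gcongr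
      linarith
    have hHn := (hb1 x).2.1
    have hw0 : 0 ≤ h r / r := by positivity
    have hwU : 0 ≤ h r / r * U := by positivity
    by_cases hcase : R2 ≤ r
    · have e1 : m0 / r ≤ hartree u x := hR1' x (le_trans (le_max_left _ _) hcase)
      have e2 : ((n : ℝ) + 1) ^ 2 / 2 * (h r / r * (U / r)) ≤ c / 2 * (h r / r * U) := by
        have e3 : ((n : ℝ) + 1) ^ 2 / c ≤ r := le_trans (le_max_right _ _) hcase
        rw [div_le_iff₀ hc0] at e3
        have e4 : ((n : ℝ) + 1) ^ 2 / r ≤ c := by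
          rw [div_le_iff₀ hr]
          linarith
        have e5 : ((n : ℝ) + 1) ^ 2 / 2 * (h r / r * (U / r))
            = 1 / 2 * (((n : ℝ) + 1) ^ 2 / r) * (h r / r * U) := by
          field_simp
        rw [e5]
        have e6 : 1 / 2 * (((n : ℝ) + 1) ^ 2 / r) * (h r / r * U) ≤ 1 / 2 * c * (h r / r * U) := by
          gcongr
        linarith
      have e3 : h r * U * hartree u x - h r / r * U ≥ c * (h r / r * U) := by
        have e4 : h r * U * (m0 / r) ≤ h r * U * hartree u x := by gcongr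
        have e5 : h r * U * (m0 / r) = m0 * (h r / r * U) := by ring
        rw [hc]
        linarith
      have e4 : 0 ≤ K1 * U + K2 * (U / r) := by positivity
      linarith
    · push Not at hcase
      have e1 : h r / r ≤ R2 ^ n := by
        refine (hhr r hr.le).2.2.trans ?_
        gcongr
      have e2 : h r / r * U ≤ R2 ^ n * U := by gcongr
      have e3 : h r / r * (U / r) ≤ R2 ^ n * (U / r) := by gcongr
      have e4 : 0 ≤ h r * U * hartree u x := by positivity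
      have e5 : (1 + c / 2) * (h r / r * U) ≤ K1 * U := by
        rw [hK1]
        calc (1 + c / 2) * (h r / r * U) ≤ (1 + c / 2) * (R2 ^ n * U) := by gcongr
          _ = _ := by ring
      have e6 : ((n : ℝ) + 1) ^ 2 / 2 * (h r / r * (U / r)) ≤ K2 * (U / r) := by
        rw [hK2]
        calc ((n : ℝ) + 1) ^ 2 / 2 * (h r / r * (U / r)) ≤ ((n : ℝ) + 1) ^ 2 / 2 * (R2 ^ n * (U / r)) := by
              gcongr
          _ = _ := by ring
      linarith
  have hfin : ∫ x : E3, (1 / 2 * (h ‖x‖ * g2 G x) + c / 2 * (h ‖x‖ / ‖x‖ * ‖u x‖ ^ 2)) ≤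
      ∫ x : E3, ((h ‖x‖ * g2 G x + h1 ‖x‖ * ur u G x - h ‖x‖ / ‖x‖ * ‖u x‖ ^ 2
      + h ‖x‖ * ‖u x‖ ^ 2 * hartree u x) + (K1 * ‖u x‖ ^ 2 + K2 * (‖u x‖ ^ 2 / ‖x‖))) :=
    integral_mono_ae ((I1.const_mul _).add (I3.const_mul _))
      (I1234.add hEint) hpt
  rw [integral_add I1234 hEint] at hfin
  rw [hgoal]
  linarith

theorem momn (hEH : T_eh) (hHB : T_hb) : T_momn := by
  intro u lam G hsol hH1 hlam hmass
  have key : ∀ n : ℕ, Integrable (fun x : E3 => ‖x‖ ^ (n + 1) * g2 G x) ∧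
      Integrable (fun x : E3 => ‖x‖ ^ n * ‖u x‖ ^ 2) := by
    intro n
    obtain ⟨C, c, hc, h⟩ := momn_est hEH hHB hsol hH1 hlam hmass n
    have hk : ∀ k : ℕ, (0 : ℝ) < (k : ℝ) + 1 := fun k => by positivity
    have hn1 : ∀ k : ℕ, ∀ x : E3, 0 ≤ mR ((k : ℝ) + 1) ‖x‖ ^ (n + 1) * g2 G x := fun k x =>
      mul_nonneg (pow_nonneg (mR_nonneg (hk k) (norm_nonneg _)) _) (g2_nonneg G x)
    have hn2 : ∀ k : ℕ, ∀ x : E3, 0 ≤ mR ((k : ℝ) + 1) ‖x‖ ^ (n + 1) / ‖x‖ * ‖u x‖ ^ 2 := fun k x =>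
      mul_nonneg (div_nonneg (pow_nonneg (mR_nonneg (hk k) (norm_nonneg _)) _) (norm_nonneg _))
        (by positivity)
    have hne : ∀ᵐ x : E3, x ≠ 0 := by
      rw [ae_iff]
      simp
    constructor
    · apply integrable_of_fatou (f := fun k x => mR ((k : ℝ) + 1) ‖x‖ ^ (n + 1) * g2 G x)
        (C := 2 * C) (fun k => (h _ (hk k)).1) hn1
      · intro k
        have e1 := (h _ (hk k)).2.2
        have e2 : 0 ≤ ∫ x : E3, mR ((k : ℝ) + 1) ‖x‖ ^ (n + 1) / ‖x‖ * ‖u x‖ ^ 2 :=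
          integral_nonneg (hn2 k)
        have e3 : 0 ≤ c / 2 * ∫ x : E3, mR ((k : ℝ) + 1) ‖x‖ ^ (n + 1) / ‖x‖ * ‖u x‖ ^ 2 := by
          positivity
        linarith
      · filter_upwards with x
        exact ((mR_tendsto ‖x‖).pow (n + 1)).mul_const _
    · apply integrable_of_fatou (f := fun k x => mR ((k : ℝ) + 1) ‖x‖ ^ (n + 1) / ‖x‖ * ‖u x‖ ^ 2)
        (C := 2 / c * C) (fun k => (h _ (hk k)).2.1) hn2
      · intro k
        have e1 := (h _ (hk k)).2.2
        have e2 : 0 ≤ ∫ x : E3, mR ((k : ℝ) + 1) ‖x‖ ^ (n + 1) * g2 G x :=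
          integral_nonneg (hn1 k)
        have e3 : c / 2 * (∫ x : E3, mR ((k : ℝ) + 1) ‖x‖ ^ (n + 1) / ‖x‖ * ‖u x‖ ^ 2) ≤ C := by
          linarith
        have e4 : ∫ x : E3, mR ((k : ℝ) + 1) ‖x‖ ^ (n + 1) / ‖x‖ * ‖u x‖ ^ 2
            = 2 / c * (c / 2 * ∫ x : E3, mR ((k : ℝ) + 1) ‖x‖ ^ (n + 1) / ‖x‖ * ‖u x‖ ^ 2) := by
          field_simp
        rw [e4]
        gcongr
      · filter_upwards [hne] with x hx
        have hr : ‖x‖ ≠ 0 := norm_ne_zero_iff.mpr hx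
        have e1 := (((mR_tendsto ‖x‖).pow (n + 1)).div_const ‖x‖).mul_const (‖u x‖ ^ 2)
        have e2 : ‖x‖ ^ (n + 1) / ‖x‖ = ‖x‖ ^ n := by
          rw [pow_succ]
          field_simp
        rw [e2] at e1
        exact e1
  intro n
  refine ⟨(key n).2, ?_⟩
  cases n with
  | zero =>
    have := int_g2 hH1
    simpa using this
  | succ n => exact (key n).1

end Pool.Agent.H42.HN
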