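import Mathlib
import Pool.Agent.H99.HN.Targets

/-!
# Regularity and decay of the radial part of a Newton potential (`T_ubar`)
-/

namespace Pool.Agent.H42.HN

open Pool.Agent.H99.HM Pool.Agent.H99.HN
open MeasureTheory Set Filter Topology Real Metric
open scoped ContDiff

lemma ae_ne_sphere (r : ℝ) : ∀ᵐ y : E3, ‖y‖ ≠ r := by
  rw [ae_iff]
  have h1 : {y : E3 | ¬ ‖y‖ ≠ r} = sphere (0 : E3) r := by
    ext y
    simp
  rw [h1]
  exact Measure.addHaar_sphere volume 0 r

lemma inv_max_lip {a r r' t : ℝ} (ha : 0 < a) (hr : a ≤ r) (hr' : a ≤ r') :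
    |1 / max r t - 1 / max r' t| ≤ |r - r'| / a ^ 2 := by
  have h1 : a ≤ max r t := hr.trans (le_max_left _ _)
  have h2 : a ≤ max r' t := hr'.trans (le_max_left _ _)
  have h3 : 0 < max r t := by linarith
  have h4 : 0 < max r' t := by linarith
  rw [div_sub_div _ _ h3.ne' h4.ne', abs_div, abs_of_pos (mul_pos h3 h4)]
  have h5 : |1 * max r' t - max r t * 1| ≤ |r - r'| := by
    rw [one_mul, mul_one, abs_sub_comm]
    exact abs_max_sub_max_le_abs r r' t
  have h6 : a ^ 2 ≤ max r t * max r' t := by nlinarith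
  have h7 : 0 < a ^ 2 := by positivity
  calc |1 * max r' t - max r t * 1| / (max r t * max r' t) ≤ |r - r'| / (max r t * max r' t) := by
        gcongr
    _ ≤ |r - r'| / a ^ 2 := by gcongr

lemma hasDeriv_inv_max {r t : ℝ} (hr : 0 < r) (ht : t ≠ r) :
    HasDerivAt (fun s => 1 / max s t) (if t < r then -(1 / r ^ 2) else 0) r := by
  rcases lt_or_gt_of_ne ht with h | h
  · rw [if_pos h]
    have h1 : (fun s : ℝ => 1 / max s t) =ᶠ[𝓝 r] fun s => s⁻¹ := by
      filter_upwards [lt_mem_nhds h] with s hs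
      rw [max_eq_left hs.le, one_div]
    have h2 : HasDerivAt (fun s : ℝ => s⁻¹) (-(r ^ 2)⁻¹) r := hasDerivAt_inv hr.ne'
    rw [← one_div] at h2
    exact h2.congr_of_eventuallyEq h1
  · rw [if_neg (not_lt.mpr h.le)]
    have h1 : (fun s : ℝ => 1 / max s t) =ᶠ[𝓝 r] fun _ => 1 / t := by
      filter_upwards [gt_mem_nhds h] with s hs
      rw [max_eq_right hs.le]
    exact (hasDerivAt_const r (1 / t)).congr_of_eventuallyEq h1

theorem ubar : T_ubar := by
  intro ρ hρ
  have hcont : Continuous ρ := hρ.1.continuous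
  have hint : Integrable ρ := hcont.integrable_of_hasCompactSupport hρ.2
  obtain ⟨K, hK⟩ := hρ.2.exists_bound_of_continuous hcont
  have hK0 : 0 ≤ K := (norm_nonneg _).trans (hK 0)
  set I1 : ℝ := ∫ y, ‖ρ y‖ with hI1
  have hI0 : 0 ≤ I1 := integral_nonneg (fun _ => norm_nonneg _)
  set v : ℝ → ℝ := fun r => ∫ y, (if ‖y‖ < r then -(1 / r ^ 2) else 0) * ρ y with hv
  have hmeas : ∀ r : ℝ, Measurable (fun y : E3 => if ‖y‖ < r then -(1 / r ^ 2) else (0 : ℝ)) := by
    intro r
    exact Measurable.ite (measurableSet_lt measurable_norm measurable_const) measurable_const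
      measurable_const
  have hmeasmax : ∀ r : ℝ, Measurable (fun y : E3 => 1 / max r ‖y‖) := by
    intro r
    have : Measurable (fun y : E3 => max r ‖y‖) := measurable_const.max measurable_norm
    exact this.const_div 1
  have hUeq : ∀ r, Ubp ρ r = ∫ y, 1 / max r ‖y‖ * ρ y := by
    intro r
    unfold Ubp
    apply integral_congr_ae
    filter_upwards with y
    ring
  have hder : ∀ r, 0 < r → HasDerivAt (Ubp ρ) (v r) r := by
    intro r hr
    have h1 : Ubp ρ = fun r => ∫ y, 1 / max r ‖y‖ * ρ y := funext hUeq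
    rw [h1]
    have hbd : ∀ s : ℝ, r / 2 < s → ∀ y : E3, |1 / max s ‖y‖| ≤ 2 / r := by
      intro s hs y
      have h2 : r / 2 < max s ‖y‖ := lt_of_lt_of_le hs (le_max_left _ _)
      have h3 : 0 < max s ‖y‖ := by linarith
      rw [abs_of_pos (by positivity), div_le_div_iff₀ h3 hr]
      linarith
    have hintF : ∀ s : ℝ, r / 2 < s → Integrable (fun y : E3 => 1 / max s ‖y‖ * ρ y) := by
      intro s hs
      apply hint.bdd_mul (c := 2 / r) (hmeasmax s).aestronglyMeasurable
      filter_upwards with y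
      exact hbd s hs y
    refine (hasDerivAt_integral_of_dominated_loc_of_lip (μ := volume)
      (F := fun s y => 1 / max s ‖y‖ * ρ y)
      (F' := fun y => (if ‖y‖ < r then -(1 / r ^ 2) else 0) * ρ y)
      (bound := fun y => ‖ρ y‖ * (1 / (r / 2) ^ 2))
      (ball_mem_nhds r (half_pos hr)) ?_ (hintF r (by linarith)) ?_ ?_ ?_ ?_).2
    · filter_upwards [lt_mem_nhds (show r / 2 < r by linarith)] with s hs
      exact (hintF s hs).aestronglyMeasurable
    · exact ((hmeas r).aestronglyMeasurable).mul hint.aestronglyMeasurable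
    · filter_upwards with y
      apply LipschitzOnWith.of_dist_le_mul
      intro s hs s' hs'
      rw [Real.dist_eq, Real.dist_eq]
      rw [mem_ball, Real.dist_eq, abs_lt] at hs hs'
      have h2 := inv_max_lip (a := r / 2) (r := s) (r' := s') (t := ‖y‖) (by linarith) (by linarith)
        (by linarith)
      have h3 : 1 / max s ‖y‖ * ρ y - 1 / max s' ‖y‖ * ρ y
          = (1 / max s ‖y‖ - 1 / max s' ‖y‖) * ρ y := by ring
      rw [h3, abs_mul]
      have h4 : ((Real.nnabs (‖ρ y‖ * (1 / (r / 2) ^ 2)) : NNReal) : ℝ) = ‖ρ y‖ * (1 / (r / 2) ^ 2) := by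
        rw [Real.coe_nnabs, abs_of_nonneg (by positivity)]
      rw [h4]
      calc |1 / max s ‖y‖ - 1 / max s' ‖y‖| * |ρ y| ≤ |s - s'| / (r / 2) ^ 2 * |ρ y| := by gcongr
        _ = ‖ρ y‖ * (1 / (r / 2) ^ 2) * |s - s'| := by
          rw [Real.norm_eq_abs]
          ring
    · exact hint.norm.mul_const _
    · filter_upwards [ae_ne_sphere r] with y hy
      exact (hasDeriv_inv_max hr hy).mul_const (ρ y)
  have hvbound1 : ∀ r, 0 < r → |v r| ≤ I1 / r ^ 2 := by
    intro r hr
    rw [← Real.norm_eq_abs, hv]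
    refine (norm_integral_le_integral_norm _).trans ?_
    have h1 : I1 / r ^ 2 = ∫ y, 1 / r ^ 2 * ‖ρ y‖ := by
      rw [integral_const_mul, hI1]
      ring
    rw [h1]
    apply integral_mono_of_nonneg
    · filter_upwards with y
      exact norm_nonneg _
    · exact hint.norm.const_mul _
    · filter_upwards with y
      show ‖(if ‖y‖ < r then -(1 / r ^ 2) else 0) * ρ y‖ ≤ 1 / r ^ 2 * ‖ρ y‖
      rw [norm_mul]
      gcongr
      split_ifs
      · rw [norm_neg, Real.norm_of_nonneg (by positivity)]
      · rw [norm_zero]; positivity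
  set K2 : ℝ := K * (volume (ball (0 : E3) 1)).toReal with hK2
  have hK20 : 0 ≤ K2 := by positivity
  have hvbound2 : ∀ r, 0 < r → |v r| ≤ K2 * r := by
    intro r hr
    have e1 : v r = ∫ y in ball (0 : E3) r, -(1 / r ^ 2) * ρ y := by
      rw [hv, ← integral_indicator measurableSet_ball]
      apply integral_congr_ae
      filter_upwards with y
      by_cases hy : ‖y‖ < r
      · rw [Set.indicator_of_mem (by rwa [mem_ball_zero_iff]), if_pos hy]
      · rw [Set.indicator_of_notMem (by rwa [mem_ball_zero_iff]), if_neg hy, zero_mul]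
    rw [e1, ← Real.norm_eq_abs]
    have hfin : volume (ball (0 : E3) r) < ⊤ := measure_ball_lt_top
    have e2 := norm_setIntegral_le_of_norm_le_const (μ := volume) (s := ball (0 : E3) r)
      (f := fun y => -(1 / r ^ 2) * ρ y) (C := 1 / r ^ 2 * K) hfin (by
        intro y _
        rw [norm_mul, norm_neg, Real.norm_of_nonneg (by positivity : (0 : ℝ) ≤ 1 / r ^ 2)]
        gcongr
        exact hK y)
    refine e2.trans ?_
    have e3 : volume.real (ball (0 : E3) r) = r ^ 3 * (volume (ball (0 : E3) 1)).toReal := by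
      rw [measureReal_def, Measure.addHaar_ball volume (0 : E3) hr.le, ENNReal.toReal_mul,
        ENNReal.toReal_ofReal (by positivity)]
      congr 2
      simp
    rw [e3, hK2]
    apply le_of_eq
    field_simp
  have hcontv : ContinuousOn v (Ioi 0) := by
    intro r hr
    rw [mem_Ioi] at hr
    apply ContinuousAt.continuousWithinAt
    rw [hv]
    apply continuousAt_of_dominated (bound := fun y => (1 / (r / 2) ^ 2) * ‖ρ y‖)
    · filter_upwards with s
      exact ((hmeas s).aestronglyMeasurable).mul hint.aestronglyMeasurable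
    · filter_upwards [lt_mem_nhds (show r / 2 < r by linarith)] with s hs
      filter_upwards with y
      rw [norm_mul]
      gcongr
      split_ifs
      · have hs0 : 0 < s := by linarith
        rw [norm_neg, Real.norm_of_nonneg (by positivity)]
        apply one_div_le_one_div_of_le (by positivity)
        gcongr
      · rw [norm_zero]; positivity
    · exact hint.norm.const_mul _
    · filter_upwards [ae_ne_sphere r] with y hy
      apply ContinuousAt.mul _ continuousAt_const
      rcases lt_or_gt_of_ne hy with h | h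
      · have h1 : (fun s : ℝ => if ‖y‖ < s then -(1 / s ^ 2) else (0 : ℝ)) =ᶠ[𝓝 r] fun s => -(1 / s ^ 2) := by
          filter_upwards [lt_mem_nhds h] with s hs
          rw [if_pos hs]
        apply ContinuousAt.congr _ h1.symm
        apply ContinuousAt.neg
        apply ContinuousAt.div continuousAt_const (by fun_prop) (by positivity)
      · have h1 : (fun s : ℝ => if ‖y‖ < s then -(1 / s ^ 2) else (0 : ℝ)) =ᶠ[𝓝 r] fun _ => 0 := by
          filter_upwards [gt_mem_nhds h] with s hs
          rw [if_neg (not_lt.mpr (le_of_lt hs))]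
        exact ContinuousAt.congr continuousAt_const h1.symm
  have hUb1 : ∀ r, 0 < r → |Ubp ρ r| ≤ I1 / r := by
    intro r hr
    rw [hUeq, ← Real.norm_eq_abs]
    refine (norm_integral_le_integral_norm _).trans ?_
    have h1 : I1 / r = ∫ y, 1 / r * ‖ρ y‖ := by
      rw [integral_const_mul, hI1]
      ring
    rw [h1]
    apply integral_mono_of_nonneg
    · filter_upwards with y
      exact norm_nonneg _
    · exact hint.norm.const_mul _
    · filter_upwards with y
      show ‖1 / max r ‖y‖ * ρ y‖ ≤ 1 / r * ‖ρ y‖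
      rw [norm_mul]
      gcongr
      rw [Real.norm_of_nonneg (by positivity)]
      apply one_div_le_one_div_of_le hr (le_max_left _ _)
  have hUb2 : ∀ r, 0 < r → r ≤ 1 → |Ubp ρ r| ≤ I1 + K2 := by
    intro r hr hr1
    have h1 := (convex_Icc r 1).norm_image_sub_le_of_norm_hasDerivWithin_le (f := Ubp ρ) (f' := v)
      (C := K2) (fun x hx => (hder x (lt_of_lt_of_le hr hx.1)).hasDerivWithinAt)
      (fun x hx => by
        rw [Real.norm_eq_abs]
        have h2 := hvbound2 x (lt_of_lt_of_le hr hx.1)
        have h3 : K2 * x ≤ K2 * 1 := by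
          apply mul_le_mul_of_nonneg_left hx.2 hK20
        linarith) (right_mem_Icc.mpr hr1) (left_mem_Icc.mpr hr1)
    rw [Real.norm_eq_abs, Real.norm_eq_abs] at h1
    have h2 := hUb1 1 one_pos
    rw [div_one] at h2
    have h3 : |r - 1| ≤ 1 := by rw [abs_le]; constructor <;> linarith
    have h4 : K2 * |r - 1| ≤ K2 * 1 := mul_le_mul_of_nonneg_left h3 hK20
    have h5 : |Ubp ρ r| ≤ |Ubp ρ r - Ubp ρ 1| + |Ubp ρ 1| := by
      have := abs_add_le (Ubp ρ r - Ubp ρ 1) (Ubp ρ 1)
      rwa [sub_add_cancel] at this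
    linarith
  refine ⟨v, 4 * (I1 + K2), ⟨hder, hcontv⟩, ?_⟩
  intro r hr
  have hr2 : 0 < 1 + r := by linarith
  constructor
  · rw [le_div_iff₀ hr2]
    rcases le_total r 1 with h | h
    · have h1 := hUb2 r hr h
      have h2 : 0 ≤ |Ubp ρ r| := abs_nonneg _
      nlinarith
    · have h1 := hUb1 r hr
      rw [le_div_iff₀ hr] at h1
      have h2 : 0 ≤ |Ubp ρ r| := abs_nonneg _
      nlinarith
  · rw [le_div_iff₀ (by positivity)]
    rcases le_total r 1 with h | h
    · have h1 := hvbound2 r hr
      have h2 : 0 ≤ |v r| := abs_nonneg _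
      have h3 : |v r| ≤ K2 := h1.trans (by nlinarith)
      have h4 : (1 + r) ^ 2 ≤ 4 := by nlinarith
      nlinarith
    · have h1 := hvbound1 r hr
      rw [le_div_iff₀ (by positivity)] at h1
      have h2 : 0 ≤ |v r| := abs_nonneg _
      have h4 : (1 + r) ^ 2 ≤ 4 * r ^ 2 := by nlinarith
      nlinarith

end Pool.Agent.H42.HN
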